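import Pool.Agent.Helper93.TCU.Stmts
import Pool.Agent.Helper93.TCU.Bas
import Pool.Agent.Helper3.TCS.Mean
import Pool.Agent.Helper3.TCS.E2

/-!
# TCU: module Trip (helper77): the mean of `kR'` times the number of pairs of `KP`
-/

set_option autoImplicit false

namespace Pool.TCU

open Pool.TC Pool.TCM Pool.TCS Finset
open scoped Classical

section

variable {V κ : Type} [Fintype V] [Fintype κ]

/-- the letters which put `t` into `KR` -/
private noncomputable def TrR (S : CS V κ) (U : Finset V) {l : ℕ} (e : V → Fin l → κ) (w : V)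
    (a : κ) (t : V) : Finset (Fin l) :=
  univ.filter (fun i => t ∈ U ∧ t ≠ w ∧ S.r t (e t i) = S.r w a)

omit [Fintype κ] in
private theorem Tr_KR (S : CS V κ) (U : Finset V) {l : ℕ} (e : V → Fin l → κ) (w : V) (a : κ)
    (ω : V → Fin l) :
    KR S U (oc e ω) w (S.r w a) = univ.filter (fun t => ω t ∈ TrR S U e w a t) := by
  ext t
  unfold KR TrR oc
  rw [mem_filter, mem_filter, mem_filter]
  exact ⟨fun h => ⟨mem_univ _, mem_univ _, h.2⟩, fun h => ⟨mem_univ _, h.2.2⟩⟩

omit [Fintype V] [Fintype κ] in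
private theorem Tr_disj (S : CS V κ) (U : Finset V) {l : ℕ} (e : V → Fin l → κ) (w : V) (a : κ)
    (t : V) (i : Fin l) (hi : i ∈ TrR S U e w a t) (hj : i ∈ E2R S U e w a t) : False := by
  simp only [E2R, TrR, mem_filter, mem_univ, true_and] at hi hj
  apply hi.2.1
  apply S.inj t w a
  rw [← hi.2.2, hj.2.2]

private theorem Tr_sumR {S : CS V κ} {U : Finset V} {L : V → Finset κ} {D l m K : ℕ}
    {x : ℝ} {q : V → κ → ℝ} {Lam : ℝ} {e : V → Fin l → κ} (h : Hyp S U L D l m K x q Lam)
    (he : Enu U L l e) {w : V} (hw : w ∈ U) {a : κ} (ha : a ∈ L w) :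
    (∑ t : V, ((TrR S U e w a t).card : ℝ)) = (Cv S U L (S.r w a)).card - 1 := by
  have hmem : (w, a) ∈ Cv S U L (S.r w a) := by
    simp only [Cv, mem_filter, mem_univ, true_and]
    exact ⟨hw, ha, trivial⟩
  have hcard : ∑ t : V, (TrR S U e w a t).card = ((Cv S U L (S.r w a)).erase (w, a)).card := by
    rw [← Finset.card_sigma]
    refine Finset.card_bij (fun p _ => (p.1, e p.1 p.2)) ?_ ?_ ?_
    · rintro ⟨t, i⟩ hp
      simp only [TrR, Finset.mem_sigma, mem_filter, mem_univ, true_and] at hp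
      simp only [mem_erase, Cv, mem_filter, mem_univ, true_and]
      refine ⟨?_, hp.1, (he.mem t hp.1 _).2 ⟨i, rfl⟩, hp.2.2⟩
      intro hcon
      exact hp.2.1 (Prod.mk.inj hcon).1
    · rintro ⟨t, i⟩ hp ⟨t', i'⟩ hp' heq
      simp only [TrR, Finset.mem_sigma, mem_filter, mem_univ, true_and] at hp hp'
      obtain ⟨h1, h2⟩ := Prod.mk.inj heq
      simp only at h1 h2
      subst h1
      have := he.inj t hp.1 h2
      rw [this]
    · rintro ⟨t, b⟩ hp
      simp only [mem_erase, Cv, mem_filter, mem_univ, true_and] at hp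
      obtain ⟨hne, htU, hb, hr⟩ := hp
      obtain ⟨i, hi⟩ := (he.mem t htU b).1 hb
      refine ⟨⟨t, i⟩, ?_, ?_⟩
      · simp only [TrR, Finset.mem_sigma, mem_filter, mem_univ, true_and]
        refine ⟨htU, ?_, ?_⟩
        · rintro rfl
          apply hne
          rw [h.inj2 t htU b hb a ha hr]
        · rw [hi]
          exact hr
      · simp only
        rw [hi]
  have h2 : (∑ t : V, ((TrR S U e w a t).card : ℝ)) =
      (((Cv S U L (S.r w a)).erase (w, a)).card : ℝ) := by
    rw [← hcard]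
    push_cast
    rfl
  rw [h2, card_erase_of_mem hmem, Nat.cast_sub (card_pos.2 ⟨_, hmem⟩)]
  simp

/-- three independent letters -/
private theorem Tr_three {T A : Type} [Fintype T] [Fintype A] [Nonempty A] {t s s' : T}
    (h1 : t ≠ s) (h2 : t ≠ s') (h3 : s ≠ s') (R R' R'' : Finset A) :
    mean (fun ω : T → A => (if ω t ∈ R then (1 : ℝ) else 0) *
      ((if ω s ∈ R' then (1 : ℝ) else 0) * (if ω s' ∈ R'' then (1 : ℝ) else 0))) =
      (R.card : ℝ) * (R'.card * R''.card) / (Fintype.card A : ℝ) ^ 3 := by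
  have h := Mean_prod_on (A := A) ({t, s, s'} : Finset T)
    (fun r a => if r = t then (if a ∈ R then (1 : ℝ) else 0) else
      if r = s then (if a ∈ R' then (1 : ℝ) else 0) else (if a ∈ R'' then (1 : ℝ) else 0))
  have hn : t ∉ ({s, s'} : Finset T) := by
    simp only [mem_insert, mem_singleton, not_or]
    exact ⟨h1, h2⟩
  have h4 : (fun ω : T → A => ∏ r ∈ ({t, s, s'} : Finset T),
      (if r = t then (if ω r ∈ R then (1 : ℝ) else 0) else
        if r = s then (if ω r ∈ R' then (1 : ℝ) else 0) else (if ω r ∈ R'' then (1 : ℝ) else 0))) =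
      fun ω : T → A => (if ω t ∈ R then (1 : ℝ) else 0) *
      ((if ω s ∈ R' then (1 : ℝ) else 0) * (if ω s' ∈ R'' then (1 : ℝ) else 0)) := by
    funext ω
    rw [prod_insert hn, prod_pair h3, if_pos rfl, if_neg h1.symm, if_pos rfl, if_neg h2.symm,
      if_neg h3.symm]
  rw [h4] at h
  have h5 : ∀ R : Finset A, (∑ a, if a ∈ R then (1 : ℝ) else 0) = R.card := by
    intro R
    rw [sum_boole]
    congr 2
    ext a
    simp
  rw [h, prod_insert hn, prod_pair h3]
  simp only [if_neg h1.symm, if_neg h2.symm, if_neg h3.symm, if_true]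
  rw [h5, h5, h5]
  ring

private theorem Tr_card (P : V → Prop) [DecidablePred P] :
    (((univ.filter (fun t => P t)).card : ℕ) : ℝ) = ∑ t, if P t then (1 : ℝ) else 0 := by
  rw [sum_boole]

end

theorem thm_Trip : St_Trip := by
  intro V κ _ _ S U L D l m K x q Lam e h he u hu a ha
  have hne : Nonempty (Fin l) := ⟨⟨0, h.l0⟩⟩
  set F : Finset (V × V) := univ.filter (fun p => p.1 ≠ p.2 ∧ ¬ S.adj p.1 p.2) with hF
  have hKR : ∀ ω : V → Fin l, ((KR S U (oc e ω) u (S.r u a)).card : ℝ) =
      ∑ t, if ω t ∈ TrR S U e u a t then (1 : ℝ) else 0 := by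
    intro ω
    rw [Tr_KR, Tr_card]
  have hNP : ∀ ω : V → Fin l, npair S (KP S U (oc e ω) u a) =
      (∑ p ∈ F, (if ω p.1 ∈ E2R S U e u a p.1 then (1 : ℝ) else 0) *
        (if ω p.2 ∈ E2R S U e u a p.2 then (1 : ℝ) else 0)) / 2 := by
    intro ω
    unfold npair
    congr 1
    have h1 : (KP S U (oc e ω) u a ×ˢ KP S U (oc e ω) u a).filter
        (fun p => p.1 ≠ p.2 ∧ ¬ S.adj p.1 p.2) =
        F.filter (fun p => ω p.1 ∈ E2R S U e u a p.1 ∧ ω p.2 ∈ E2R S U e u a p.2) := by
      rw [E2_KP, hF]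
      ext p
      simp only [mem_filter, mem_product, mem_univ, true_and]
      tauto
    rw [h1, ← sum_boole]
    refine sum_congr rfl fun p _ => ?_
    rw [ite_and]
    split_ifs <;> simp
  have hprod : ∀ ω : V → Fin l, ((KR S U (oc e ω) u (S.r u a)).card : ℝ) *
      npair S (KP S U (oc e ω) u a) = ∑ t, ∑ p ∈ F,
        ((if ω t ∈ TrR S U e u a t then (1 : ℝ) else 0) *
        ((if ω p.1 ∈ E2R S U e u a p.1 then (1 : ℝ) else 0) *
        (if ω p.2 ∈ E2R S U e u a p.2 then (1 : ℝ) else 0))) / 2 := by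
    intro ω
    rw [hKR, hNP, sum_mul]
    refine sum_congr rfl fun t _ => ?_
    rw [← mul_div_assoc, mul_sum, sum_div]
  have hmean : mean (fun ω : V → Fin l => ((KR S U (oc e ω) u (S.r u a)).card : ℝ) *
      npair S (KP S U (oc e ω) u a)) = ∑ t, ∑ p ∈ F, mean (fun ω : V → Fin l =>
        ((if ω t ∈ TrR S U e u a t then (1 : ℝ) else 0) *
        ((if ω p.1 ∈ E2R S U e u a p.1 then (1 : ℝ) else 0) *
        (if ω p.2 ∈ E2R S U e u a p.2 then (1 : ℝ) else 0))) / 2) := by
    rw [funext hprod, Mean_sum]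
    exact sum_congr rfl fun t _ => Mean_sum _ _
  have hterm : ∀ t, ∀ p ∈ F, mean (fun ω : V → Fin l =>
        ((if ω t ∈ TrR S U e u a t then (1 : ℝ) else 0) *
        ((if ω p.1 ∈ E2R S U e u a p.1 then (1 : ℝ) else 0) *
        (if ω p.2 ∈ E2R S U e u a p.2 then (1 : ℝ) else 0))) / 2) ≤
      ((TrR S U e u a t).card : ℝ) * (((E2R S U e u a p.1).card : ℝ) *
        (E2R S U e u a p.2).card) / (l : ℝ) ^ 3 / 2 := by
    intro t p hp
    rw [hF, mem_filter] at hp
    have hhalf : ∀ f : (V → Fin l) → ℝ, mean (fun ω => f ω / 2) = mean f / 2 := by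
      intro f
      unfold mean
      rw [← sum_div]
      ring
    rw [hhalf]
    refine div_le_div_of_nonneg_right ?_ (by norm_num)
    by_cases h1 : t = p.1
    · have h0 : (fun ω : V → Fin l => (if ω t ∈ TrR S U e u a t then (1 : ℝ) else 0) *
          ((if ω p.1 ∈ E2R S U e u a p.1 then (1 : ℝ) else 0) *
          (if ω p.2 ∈ E2R S U e u a p.2 then (1 : ℝ) else 0))) = fun _ => 0 := by
        funext ω
        by_cases h2 : ω t ∈ TrR S U e u a t
        · have h3 : ω p.1 ∉ E2R S U e u a p.1 := by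
            rw [← h1]
            exact fun h4 => Tr_disj S U e u a t _ h2 h4
          rw [if_neg h3]
          ring
        · rw [if_neg h2]
          ring
      rw [h0]
      unfold mean
      rw [sum_const_zero, zero_div]
      positivity
    by_cases h1' : t = p.2
    · have h0 : (fun ω : V → Fin l => (if ω t ∈ TrR S U e u a t then (1 : ℝ) else 0) *
          ((if ω p.1 ∈ E2R S U e u a p.1 then (1 : ℝ) else 0) *
          (if ω p.2 ∈ E2R S U e u a p.2 then (1 : ℝ) else 0))) = fun _ => 0 := by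
        funext ω
        by_cases h2 : ω t ∈ TrR S U e u a t
        · have h3 : ω p.2 ∉ E2R S U e u a p.2 := by
            rw [← h1']
            exact fun h4 => Tr_disj S U e u a t _ h2 h4
          rw [if_neg h3]
          ring
        · rw [if_neg h2]
          ring
      rw [h0]
      unfold mean
      rw [sum_const_zero, zero_div]
      positivity
    · have h9 := Tr_three h1 h1' hp.2.1 (TrR S U e u a t) (E2R S U e u a p.1) (E2R S U e u a p.2)
      rw [Fintype.card_fin] at h9
      refine le_of_eq (Eq.trans (congrArg mean (funext fun ω => ?_)) h9)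
      by_cases a1 : ω t ∈ TrR S U e u a t <;> by_cases a2 : ω p.1 ∈ E2R S U e u a p.1 <;>
        by_cases a3 : ω p.2 ∈ E2R S U e u a p.2 <;> simp [a1, a2, a3]
  rw [hmean]
  refine (sum_le_sum fun t _ => sum_le_sum fun p hp => hterm t p hp).trans (le_of_eq ?_)
  have hP : (∑ p ∈ F, ((E2R S U e u a p.1).card : ℝ) * (E2R S U e u a p.2).card) =
      2 * npair S (Pn S U L u a) := by
    have h5 : ∀ p : V × V, ((E2R S U e u a p.1).card : ℝ) * (E2R S U e u a p.2).card =
        if p ∈ Pn S U L u a ×ˢ Pn S U L u a then 1 else 0 := by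
      intro p
      rw [E2_card S U L e he u a, E2_card S U L e he u a]
      by_cases h6 : p.1 ∈ Pn S U L u a <;> by_cases h7 : p.2 ∈ Pn S U L u a <;>
        simp [h6, h7, mem_product]
    rw [sum_congr rfl (fun p _ => h5 p), sum_ite_mem, sum_const, nsmul_eq_mul, mul_one]
    unfold npair
    rw [mul_div_cancel₀ _ (by norm_num : (2 : ℝ) ≠ 0)]
    congr 2
    rw [hF]
    ext p
    simp only [mem_inter, mem_filter, mem_univ, true_and]
    tauto
  have hin : ∀ t, (∑ p ∈ F, ((TrR S U e u a t).card : ℝ) * (((E2R S U e u a p.1).card : ℝ) *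
        (E2R S U e u a p.2).card) / (l : ℝ) ^ 3 / 2) =
      ((TrR S U e u a t).card : ℝ) * (npair S (Pn S U L u a) / (l : ℝ) ^ 3) := by
    intro t
    rw [← sum_div, ← sum_div, ← mul_sum, hP]
    ring
  rw [sum_congr rfl fun t _ => hin t, ← sum_mul, Tr_sumR h he hu ha]
  have hl := h.lpos
  field_simp

end Pool.TCU
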